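import Pool.Agent.H68.X.Gc
import Pool.Agent.H68.A.Rk

/-!
# The law of the 2-isogeny Selmer ranks of all the quadratic twists of an exceptional curve

The curve `E : y² = x³ + a x² + b x` is exceptional if `b` is not a square and `b (a² - 4 b)` is a
square: `E` has a cyclic 4-isogeny over the field of its 2-torsion, but not over `ℚ`. For these
curves the two exponents `f₁`, `f₂` of the twist `E_D : y² = x³ + a D x² + b D² x` have a constant
difference on the classes of squarefree `D` (modulo squares at the infinite and the bad places), and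
the pair `(f₁ - 1, f₂ - 1) = (r, s)` has the limit law
`2^{-rs} ∏_{i ≥ 1} (1 - 2^{-i}) / (∏_{i ≤ r} (1 - 2^{-i}) ∏_{i ≤ s} (1 - 2^{-i}))`
in each class, in the natural order of all `D`. For every such curve there are classes with `f₁ = f₂`;
there `rank = s = 0` for the proportion `∏ (1 - 2^{-i}) = 0.2887...`.
-/

set_option autoImplicit false

open Filter

namespace Pool.Agent.Results.MP_e2b281_nt.ExceptionalTwistLaw

/-- the quartic `N² = b₁ M⁴ + a M² e² + b₂ e⁴` has a solution with `(M, e) ≠ (0, 0)` over `K` -/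
def Solv (K : Type) [Field K] (a b₁ b₂ : ℤ) : Prop :=
  ∃ N M e : K, (M ≠ 0 ∨ e ≠ 0) ∧
    N ^ 2 = (b₁ : K) * M ^ 4 + (a : K) * M ^ 2 * e ^ 2 + (b₂ : K) * e ^ 4

/-- the squarefree divisors `b₁` of `b` for which the quartic is everywhere locally solvable -/
def Cls (a b : ℤ) : Set ℤ := {b₁ | Squarefree b₁ ∧ b₁ ∣ b ∧ Solv ℝ a b₁ (b / b₁) ∧
  ∀ (p : ℕ) [Fact p.Prime], Solv ℚ_[p] a b₁ (b / b₁)}

/-- the exponent `f₁` of the problem for the curve `y² = x³ + a x² + b x`: the binary logarithm of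
the number of the classes -/
noncomputable def expo (a b : ℤ) : ℕ := Nat.log 2 (Cls a b).ncard

/-- the 2-Selmer rank `s = f₁ + f₂ - 2` of `y² = x³ + a x² + b x` -/
noncomputable def selRank (a b : ℤ) : ℤ := expo a b + expo (-2 * a) (a ^ 2 - 4 * b) - 2

/-- the rank of the Mordell-Weil group of `y² = x³ + a x² + b x` over `ℚ` -/
noncomputable def rk (a b : ℤ) : ℕ :=
  Module.finrank ℤ (({ a₁ := 0, a₂ := (a : ℚ), a₃ := 0, a₄ := (b : ℚ), a₆ := 0 } :
    WeierstrassCurve ℚ).toAffine.Point)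

/-- the exponent `f₁` of the twist `E_D : y² = x³ + a D x² + b D² x` -/
noncomputable def f₁ (a b D : ℤ) : ℕ := expo (a * D) (b * D ^ 2)

/-- the exponent `f₂` of the twist `E_D` -/
noncomputable def f₂ (a b D : ℤ) : ℕ := expo (-2 * (a * D)) ((a * D) ^ 2 - 4 * (b * D ^ 2))

/-- the class of `D₀`: the squarefree integers `D` of the sign of `D₀` such that `D D₀` is a square
in `ℚ_p` for every prime factor `p` of `2 b (a² - 4 b)` -/
def Fam (a b D₀ D : ℤ) : Prop := Squarefree D ∧ 0 < D * D₀ ∧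
  ∀ (p : ℕ) [Fact p.Prime], (p : ℤ) ∣ 2 * b * (a ^ 2 - 4 * b) → IsSquare ((D * D₀ : ℤ) : ℚ_[p])

/-- the number of the `D` in the class of `D₀` with `|D| ≤ X` and the property `Q` -/
noncomputable def cnt (a b D₀ : ℤ) (Q : ℤ → Prop) (X : ℕ) : ℕ :=
  Set.ncard {D : ℤ | |D| ≤ X ∧ Fam a b D₀ D ∧ Q D}

/-- the limit law `2^{-rs} ∏_{i ≥ 1} (1 - 2^{-i}) / (∏_{i ≤ r} (1 - 2^{-i}) ∏_{i ≤ s} (1 - 2^{-i}))` -/
noncomputable def law (r s : ℕ) : ℝ := (1 / 2) ^ (r * s) * (∏' i : ℕ, (1 - (1 / 2 : ℝ) ^ (i + 1))) /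
  ((∏ i ∈ Finset.range r, (1 - (1 / 2 : ℝ) ^ (i + 1))) *
    ∏ i ∈ Finset.range s, (1 - (1 / 2 : ℝ) ^ (i + 1)))

/-- **Theorem.** Let `b` be a nonsquare and `b (a² - 4 b) ≠ 0` a square.

1. For every squarefree `D₀`, the class of `D₀` has positive lower density; `f₁ - f₂` is constant on
it; and for all `r`, `s` with `r - s = f₁(D₀) - f₂(D₀)` the proportion of the `D` in the class with
`f₁ = r + 1` and `f₂ = s + 1` (hence with 2-Selmer rank `r + s` and rank at most `r + s`) tends to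
`law r s`.

2. There are classes with `f₁ = f₂`. There the proportion of the `D` with rank and 2-Selmer rank `0`
tends to `law 0 0 = ∏ (1 - 2^{-i}) = 0.2887...`. In particular a positive proportion of all the
twists has rank and 2-Selmer rank `0`. -/
theorem result (a b : ℤ) (hb : ¬ IsSquare b) (hc : a ^ 2 - 4 * b ≠ 0)
    (hbc : IsSquare (b * (a ^ 2 - 4 * b))) :
    (∀ D₀ : ℤ, Squarefree D₀ →
      (∃ C : ℝ, 0 < C ∧ ∀ᶠ X : ℕ in atTop, C * X ≤ cnt a b D₀ (fun _ => True) X) ∧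
      (∀ D : ℤ, Fam a b D₀ D → (f₁ a b D : ℤ) - f₂ a b D = f₁ a b D₀ - f₂ a b D₀ ∧
        Even (selRank (a * D) (b * D ^ 2) - selRank (a * D₀) (b * D₀ ^ 2))) ∧
      ∀ r s : ℕ, (r : ℤ) - s = f₁ a b D₀ - f₂ a b D₀ →
        Tendsto (fun X : ℕ => (cnt a b D₀ (fun D => f₁ a b D = r + 1 ∧ f₂ a b D = s + 1 ∧
          selRank (a * D) (b * D ^ 2) = r + s ∧ rk (a * D) (b * D ^ 2) ≤ r + s) X : ℝ) /
          cnt a b D₀ (fun _ => True) X) atTop (nhds (law r s))) ∧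
    (∃ D₀ : ℤ, Squarefree D₀ ∧ f₁ a b D₀ = f₂ a b D₀) ∧
    (∀ D₀ : ℤ, Squarefree D₀ → f₁ a b D₀ = f₂ a b D₀ →
      Tendsto (fun X : ℕ => (cnt a b D₀ (fun D => rk (a * D) (b * D ^ 2) = 0 ∧
        selRank (a * D) (b * D ^ 2) = 0) X : ℝ) / cnt a b D₀ (fun _ => True) X) atTop
        (nhds (law 0 0))) ∧
    (0.2887 < law 0 0 ∧ law 0 0 < 0.2888) ∧
    ∃ C : ℝ, 0 < C ∧ ∀ᶠ X : ℕ in atTop, C * X ≤
      (Set.ncard {D : ℤ | |D| ≤ X ∧ Squarefree D ∧ rk (a * D) (b * D ^ 2) = 0 ∧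
        selRank (a * D) (b * D ^ 2) = 0} : ℝ) := by
  have hb0 : b ≠ 0 := by
    rintro rfl
    exact hb IsSquare.zero
  have hN : 2 * b * (a ^ 2 - 4 * b) ≠ 0 := mul_ne_zero (mul_ne_zero two_ne_zero hb0) hc
  -- the exponents
  have hexp : ∀ (A B : ℤ) (k : ℕ), (Pool.Agent.R413.TI.CL A B).ncard = 2 ^ k → expo A B = k := by
    intro A B k hk
    unfold expo
    have : (Cls A B).ncard = 2 ^ k := hk
    rw [this, Nat.log_pow one_lt_two]
  have hdat : ∀ (D : ℤ) (r s : ℕ), D ≠ 0 →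
      (Pool.Agent.R413.TI.CL (a * D) (b * D ^ 2)).ncard = 2 ^ (r + 1) →
      (Pool.Agent.R413.TI.CL (-2 * (a * D)) ((a * D) ^ 2 - 4 * (b * D ^ 2))).ncard = 2 ^ (s + 1) →
      f₁ a b D = r + 1 ∧ f₂ a b D = s + 1 ∧ selRank (a * D) (b * D ^ 2) = r + s ∧
        rk (a * D) (b * D ^ 2) ≤ r + s := by
    intro D r s hD h1 h2
    have e1 := hexp _ _ _ h1
    have e2 := hexp _ _ _ h2
    have hbD : b * D ^ 2 ≠ 0 := mul_ne_zero hb0 (pow_ne_zero 2 hD)
    have hcD : (a * D) ^ 2 - 4 * (b * D ^ 2) ≠ 0 := by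
      have e : (a * D) ^ 2 - 4 * (b * D ^ 2) = (a ^ 2 - 4 * b) * D ^ 2 := by ring
      rw [e]
      exact mul_ne_zero hc (pow_ne_zero 2 hD)
    refine ⟨e1, e2, ?_, ?_⟩
    · unfold selRank
      rw [e1, e2]
      push_cast
      ring
    · have hr := Pool.Agent.H68.A.rank_bound (a * D) (b * D ^ 2) hbD hcD
      rw [h1, h2] at hr
      have h3 : 4 * 2 ^ rk (a * D) (b * D ^ 2) ≤ 2 ^ (r + 1) * 2 ^ (s + 1) := hr
      have h4 : 2 ^ (rk (a * D) (b * D ^ 2) + 2) ≤ 2 ^ (r + s + 2) := by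
        have e : 2 ^ (r + 1) * 2 ^ (s + 1) = 2 ^ (r + s + 2) := by
          rw [← pow_add]
          congr 1
          ring
        rw [← e, pow_add]
        linarith
      have := (Nat.pow_le_pow_iff_right one_lt_two).1 h4
      omega
  have hlaw : ∀ r s : ℕ, law r s = Pool.Agent.H68.X.pr r s := fun r s => rfl
  have hfl : ∀ D₀ D : ℤ, Fam a b D₀ D ↔ Pool.Agent.H68.X.Fl (2 * b * (a ^ 2 - 4 * b)) D₀ D :=
    fun D₀ D => Iff.rfl
  have hself : ∀ D₀ : ℤ, Squarefree D₀ → Fam a b D₀ D₀ := fun D₀ h₀ =>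
    ⟨h₀, mul_self_pos.2 h₀.ne_zero, fun p _ _ => ⟨(D₀ : ℚ_[p]), by push_cast; ring⟩⟩
  have part1 : ∀ D₀ : ℤ, Squarefree D₀ →
      (∃ C : ℝ, 0 < C ∧ ∀ᶠ X : ℕ in atTop, C * X ≤ cnt a b D₀ (fun _ => True) X) ∧
      (∀ D : ℤ, Fam a b D₀ D → (f₁ a b D : ℤ) - f₂ a b D = f₁ a b D₀ - f₂ a b D₀ ∧
        Even (selRank (a * D) (b * D ^ 2) - selRank (a * D₀) (b * D₀ ^ 2))) ∧
      ∀ r s : ℕ, (r : ℤ) - s = f₁ a b D₀ - f₂ a b D₀ →
        Tendsto (fun X : ℕ => (cnt a b D₀ (fun D => f₁ a b D = r + 1 ∧ f₂ a b D = s + 1 ∧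
          selRank (a * D) (b * D ^ 2) = r + s ∧ rk (a * D) (b * D ^ 2) ≤ r + s) X : ℝ) /
          cnt a b D₀ (fun _ => True) X) atTop (nhds (law r s)) := by
    intro D₀ h₀
    obtain ⟨u, hu1, hu2⟩ := Pool.Agent.H68.X.core hb hc hbc h₀
    have hall : ∀ D : ℤ, Fam a b D₀ D → ∃ r s : ℕ, f₁ a b D = r + 1 ∧ f₂ a b D = s + 1 ∧
        selRank (a * D) (b * D ^ 2) = r + s ∧ rk (a * D) (b * D ^ 2) ≤ r + s ∧ (r : ℤ) - s = u ∧
        (Pool.Agent.R413.TI.CL (a * D) (b * D ^ 2)).ncard = 2 ^ (r + 1) := by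
      intro D hD
      obtain ⟨r, s, h1, h2, h3⟩ := hu1 D hD
      obtain ⟨k1, k2, k3, k4⟩ := hdat D r s hD.1.ne_zero h1 h2
      exact ⟨r, s, k1, k2, k3, k4, h3, h1⟩
    obtain ⟨r0, s0, m1, m2, m3, -, m5, -⟩ := hall D₀ (hself D₀ h₀)
    refine ⟨Pool.Agent.H68.X.fl_size hN h₀, fun D hD => ?_, fun r s hrs => ?_⟩
    · obtain ⟨r, s, k1, k2, k3, -, k5, -⟩ := hall D hD
      refine ⟨by rw [k1, k2, m1, m2]; push_cast; omega, ?_⟩
      rw [k3, m3]
      exact ⟨r - r0, by omega⟩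
    · have hu : (r : ℤ) - s = u := by
        rw [hrs, m1, m2, ← m5]
        push_cast
        ring
      have h1 := hu2 r
      rw [← hu, Pool.Agent.H68.X.lam_eq] at h1
      rw [hlaw]
      refine h1.congr fun X => ?_
      refine congrArg₂ (fun x y : ℝ => x / y) (congrArg Nat.cast (congrArg Set.ncard ?_)) rfl
      ext D
      simp only [Set.mem_ofPred_eq]
      refine and_congr_right fun _ => and_congr_right fun hD => ?_
      obtain ⟨r', s', k1, k2, k3, k4, k5, k6⟩ := hall D hD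
      rw [k6]
      constructor
      · intro h2
        have h3 : r' = r := by
          have := Nat.pow_right_injective le_rfl h2
          omega
        have h4 : s' = s := by omega
        subst h3 h4
        exact ⟨k1, k2, k3, k4⟩
      · rintro ⟨h2, -⟩
        rw [k1] at h2
        rw [h2]
  have part3 : ∀ D₀ : ℤ, Squarefree D₀ → f₁ a b D₀ = f₂ a b D₀ →
      Tendsto (fun X : ℕ => (cnt a b D₀ (fun D => rk (a * D) (b * D ^ 2) = 0 ∧
        selRank (a * D) (b * D ^ 2) = 0) X : ℝ) / cnt a b D₀ (fun _ => True) X) atTop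
        (nhds (law 0 0)) := by
    intro D₀ h₀ heq
    obtain ⟨-, h1, h2⟩ := part1 D₀ h₀
    have h3 := h2 0 0 (by rw [heq]; push_cast; ring)
    refine h3.congr fun X => ?_
    refine congrArg₂ (fun x y : ℝ => x / y) (congrArg Nat.cast (congrArg Set.ncard ?_)) rfl
    ext D
    simp only [Set.mem_ofPred_eq]
    refine and_congr_right fun _ => and_congr_right fun hD => ?_
    constructor
    · rintro ⟨-, -, k3, k4⟩
      exact ⟨by omega, by rw [k3]; norm_num⟩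
    · rintro ⟨k1, k2⟩
      obtain ⟨u, hu1, -⟩ := Pool.Agent.H68.X.core hb hc hbc h₀
      obtain ⟨r, s, g1, g2, g3⟩ := hu1 D hD
      obtain ⟨k3, k4, k5, k6⟩ := hdat D r s hD.1.ne_zero g1 g2
      have h4 : (r : ℤ) + s = 0 := by rw [← k5, k2]
      have h5 : r = 0 := by omega
      have h6 : s = 0 := by omega
      subst h5 h6
      exact ⟨k3, k4, k5, by rw [k1]⟩
  obtain ⟨D₀, h₀, hD₀⟩ := Pool.Agent.H68.X.exists_class hb hc hbc
  have hD₀' : f₁ a b D₀ = f₂ a b D₀ := by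
    unfold f₁ f₂ expo
    exact congrArg (Nat.log 2) hD₀
  have hnum : 0.2887 < law 0 0 ∧ law 0 0 < 0.2888 := by
    rw [hlaw, Pool.Agent.H68.X.pr_zero]
    exact Pool.Agent.H68.X.eta_num
  refine ⟨part1, ⟨D₀, h₀, hD₀'⟩, part3, hnum, ?_⟩
  -- a positive proportion of all the twists
  obtain ⟨⟨C, hC, hsize⟩, -, -⟩ := part1 D₀ h₀
  refine ⟨C * 0.2, by positivity, ?_⟩
  have h1 : ∀ᶠ X : ℕ in atTop, (0.2 : ℝ) < (cnt a b D₀ (fun D => rk (a * D) (b * D ^ 2) = 0 ∧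
      selRank (a * D) (b * D ^ 2) = 0) X : ℝ) / cnt a b D₀ (fun _ => True) X :=
    (part3 D₀ h₀ hD₀').eventually (lt_mem_nhds (by linarith [hnum.1]))
  filter_upwards [h1, hsize, eventually_gt_atTop 0] with X k1 k2 k3
  have k4 : (0 : ℝ) < X := by exact_mod_cast k3
  have k5 : (0 : ℝ) < cnt a b D₀ (fun _ => True) X := lt_of_lt_of_le (mul_pos hC k4) k2
  rw [lt_div_iff₀ k5] at k1
  have k6 : cnt a b D₀ (fun D => rk (a * D) (b * D ^ 2) = 0 ∧
      selRank (a * D) (b * D ^ 2) = 0) X ≤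
      Set.ncard {D : ℤ | |D| ≤ X ∧ Squarefree D ∧ rk (a * D) (b * D ^ 2) = 0 ∧
        selRank (a * D) (b * D ^ 2) = 0} := by
    refine Set.ncard_le_ncard ?_ ?_
    · rintro D ⟨g1, g2, g3⟩
      exact ⟨g1, g2.1, g3⟩
    · refine (Set.finite_Icc (-(X : ℤ)) X).subset fun D hD => ?_
      exact abs_le.1 hD.1
  have k7 : (cnt a b D₀ (fun D => rk (a * D) (b * D ^ 2) = 0 ∧
      selRank (a * D) (b * D ^ 2) = 0) X : ℝ) ≤
      (Set.ncard {D : ℤ | |D| ≤ X ∧ Squarefree D ∧ rk (a * D) (b * D ^ 2) = 0 ∧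
        selRank (a * D) (b * D ^ 2) = 0} : ℝ) := by exact_mod_cast k6
  nlinarith

end Pool.Agent.Results.MP_e2b281_nt.ExceptionalTwistLaw
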