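import Pool.Agent.H68.T.Gdc

/-!
# The minimal 2-isogeny Selmer rank occurs for the proportion `0.4194...` of the twists by split
and silent primes, for every curve
-/

set_option autoImplicit false

namespace Pool.Agent.Results.MP_e2b281_nt.SelmerLawTwists

/-- the quartic `N² = b₁ M⁴ + a M² e² + b₂ e⁴` has a solution with `(M, e) ≠ (0, 0)` over `K` -/
def Solv (K : Type) [Field K] (a b₁ b₂ : ℤ) : Prop :=
  ∃ N M e : K, (M ≠ 0 ∨ e ≠ 0) ∧
    N ^ 2 = (b₁ : K) * M ^ 4 + (a : K) * M ^ 2 * e ^ 2 + (b₂ : K) * e ^ 4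

/-- the squarefree divisors `b₁` of `b` for which the quartic is everywhere locally solvable -/
def Cls (a b : ℤ) : Set ℤ := {b₁ | Squarefree b₁ ∧ b₁ ∣ b ∧ Solv ℝ a b₁ (b / b₁) ∧
  ∀ (p : ℕ) [Fact p.Prime], Solv ℚ_[p] a b₁ (b / b₁)}

/-- the exponent `f₁` of the problem for the curve `y² = x³ + a x² + b x`: the binary logarithm of
the number of the classes -/
noncomputable def expo (a b : ℤ) : ℕ := Nat.log 2 (Cls a b).ncard

/-- the 2-Selmer rank `s = f₁ + f₂ - 2` of `y² = x³ + a x² + b x` -/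
noncomputable def selRank (a b : ℤ) : ℤ := expo a b + expo (-2 * a) (a ^ 2 - 4 * b) - 2

/-- the rank of the Mordell-Weil group of `y² = x³ + a x² + b x` over `ℚ` -/
noncomputable def rk (a b : ℤ) : ℕ :=
  Module.finrank ℤ (({ a₁ := 0, a₂ := (a : ℚ), a₃ := 0, a₄ := (b : ℚ), a₆ := 0 } :
    WeierstrassCurve ℚ).toAffine.Point)

/-- `p` is an odd prime which does not divide `b (a² - 4 b)`, and `-1`, `2` and all the prime
factors of `b (a² - 4 b)` are squares modulo `p` -/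
def Split (a b : ℤ) (p : ℕ) : Prop := p.Prime ∧ p ≠ 2 ∧ ¬ (p : ℤ) ∣ b * (a ^ 2 - 4 * b) ∧
  IsSquare (-1 : ZMod p) ∧ IsSquare (2 : ZMod p) ∧
  ∀ l : ℕ, l.Prime → (l : ℤ) ∣ b * (a ^ 2 - 4 * b) → IsSquare (l : ZMod p)

/-- `q` is an odd prime, and neither `b` nor `a² - 4 b` is a square modulo `q` -/
def Silent (a b : ℤ) (q : ℕ) : Prop := q.Prime ∧ q ≠ 2 ∧ ¬ IsSquare (b : ZMod q) ∧
  ¬ IsSquare ((a ^ 2 - 4 * b : ℤ) : ZMod q)

/-- the twisting numbers: `D` is a product of different split and silent primes, and `D D₀` is `1`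
modulo `8` and a square modulo all the odd prime factors of `b (a² - 4 b)` -/
def Fam (a b : ℤ) (D₀ D : ℕ) : Prop := Squarefree D ∧
  (∀ p : ℕ, p.Prime → p ∣ D → Split a b p ∨ Silent a b p) ∧ (D * D₀) % 8 = 1 ∧
  ∀ l : ℕ, l.Prime → l ≠ 2 → (l : ℤ) ∣ b * (a ^ 2 - 4 * b) → IsSquare ((D * D₀ : ℕ) : ZMod l)

/-- the number of the twisting numbers up to `X` with the property `Q` -/
noncomputable def cnt (a b : ℤ) (D₀ : ℕ) (Q : ℕ → Prop) (X : ℕ) : ℕ :=
  Set.ncard {D : ℕ | D ≤ X ∧ Fam a b D₀ D ∧ Q D}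

/-- the limit `(1 - 1/2) (1 - 1/8) (1 - 1/32) ⋯ = 0.4194...` -/
noncomputable def lim : ℝ := ∏' i : ℕ, (1 - (1 / 2 : ℝ) ^ (2 * i + 1))

open Pool.Agent.H68.A (mat)

/-- for every curve `y² = x³ + a x² + b x`, the 2-isogeny Selmer ranks of the twists by products `D`
of split primes (in `P`) and of silent primes (in `Q`), compared with the twist by a product `D₀` of
silent primes (in `R`) such that `D₀ ∏ Q` is `1` modulo `8` and a square modulo the odd prime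
factors of `b (a² - 4 b)` (`R = Q` and, if `∏ Q` has this property, `R = ∅`, are allowed) -/
theorem twists (a b : ℤ) (hb : b ≠ 0) (hc : a ^ 2 - 4 * b ≠ 0) (P Q R : Finset ℕ)
    (hP : ∀ p ∈ P, Split a b p) (hQ : ∀ q ∈ Q, Silent a b q) (hR : ∀ q ∈ R, Silent a b q)
    (h8 : ((∏ q ∈ Q, q) * ∏ q ∈ R, q) % 8 = 1)
    (hl : ∀ l : ℕ, l.Prime → l ≠ 2 → (l : ℤ) ∣ b * (a ^ 2 - 4 * b) →
      IsSquare (((∏ q ∈ Q, q) * ∏ q ∈ R, q : ℕ) : ZMod l))
    (D D₀ : ℤ) (hD : D = (∏ p ∈ P, (p : ℤ)) * ∏ q ∈ Q, (q : ℤ)) (hD₀ : D₀ = ∏ q ∈ R, (q : ℤ)) :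
    expo (a * D) (b * D ^ 2) = expo (a * D₀) (b * D₀ ^ 2) + (P.card - (mat a b P Q).rank) ∧
    expo (-2 * (a * D)) ((a * D) ^ 2 - 4 * (b * D ^ 2)) =
      expo (-2 * (a * D₀)) ((a * D₀) ^ 2 - 4 * (b * D₀ ^ 2)) +
        (P.card - (mat a b P Q).rank) ∧
    selRank (a * D) (b * D ^ 2) =
      selRank (a * D₀) (b * D₀ ^ 2) + 2 * ((P.card : ℤ) - (mat a b P Q).rank) ∧
    (rk (a * D) (b * D ^ 2) : ℤ) ≤
      selRank (a * D₀) (b * D₀ ^ 2) + 2 * ((P.card : ℤ) - (mat a b P Q).rank) := by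
  have hQR : (∏ q ∈ Q, (q : ℤ)) * ∏ q ∈ R, (q : ℤ) = (((∏ q ∈ Q, q) * ∏ q ∈ R, q : ℕ) : ℤ) := by
    push_cast; rfl
  have hposQ : 0 < ∏ q ∈ Q, (q : ℤ) :=
    Finset.prod_pos (fun q hq => by exact_mod_cast (hQ q hq).1.pos)
  have hposR : 0 < ∏ q ∈ R, (q : ℤ) :=
    Finset.prod_pos (fun q hq => by exact_mod_cast (hR q hq).1.pos)
  have hT : H68.A.Tr (b * (a ^ 2 - 4 * b)) ((∏ q ∈ Q, (q : ℤ)) * ∏ q ∈ R, (q : ℤ)) := by
    refine ⟨mul_pos hposQ hposR, by rw [hQR]; exact_mod_cast h8, ?_⟩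
    intro l hlp hl2 hln
    constructor
    · have := Fact.mk hlp
      have hpi : Prime (l : ℤ) := Nat.prime_iff_prime_int.1 hlp
      have key : ∀ S : Finset ℕ, (∀ q ∈ S, Silent a b q) → ¬ (l : ℤ) ∣ ∏ q ∈ S, (q : ℤ) := by
        intro S hS
        refine (H68.A.nr_prod (p := l) S (fun r hr => ⟨(hS r hr).1, ?_⟩)).1
        rintro rfl
        exact (hpi.dvd_or_dvd hln).elim (H68.A.not_dvd_of_not_sq (hS r hr).2.2.1)
          (H68.A.not_dvd_of_not_sq (hS r hr).2.2.2)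
      exact fun h => (hpi.dvd_or_dvd h).elim (key Q hQ) (key R hR)
    · rw [hQR]
      have := hl l hlp hl2 hln
      rw [Int.cast_natCast]
      exact this
  have hdt := H68.A.dt hb hc hP hQ
  have hD' : D = ∏ r ∈ P ∪ Q, (r : ℤ) := by rw [hD, Finset.prod_union hdt.1.disj]
  obtain ⟨m1, m2⟩ := H68.A.main2 hb hc hP hQ hR hT
  rw [← hD', ← hD₀] at m1 m2
  have hD0 : D ≠ 0 := by
    rw [hD']
    exact (H68.A.sqf_prod (P ∪ Q) (fun r hr => hdt.1.prime hr)).ne_zero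
  have hD00 : D₀ ≠ 0 := by
    rw [hD₀]
    exact hposR.ne'
  have key : ∀ D : ℤ, D ≠ 0 → b * D ^ 2 ≠ 0 ∧ (a * D) ^ 2 - 4 * (b * D ^ 2) ≠ 0 := by
    intro D hD0
    refine ⟨mul_ne_zero hb (pow_ne_zero 2 hD0), ?_⟩
    have e : (a * D) ^ 2 - 4 * (b * D ^ 2) = (a ^ 2 - 4 * b) * D ^ 2 := by ring
    rw [e]
    exact mul_ne_zero hc (pow_ne_zero 2 hD0)
  obtain ⟨hbD, hcD⟩ := key D hD0
  obtain ⟨hbD0, hcD0⟩ := key D₀ hD00
  obtain ⟨f1, hf1⟩ := H68.A.CL_pow (a * D₀) hbD0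
  obtain ⟨f2, hf2⟩ := H68.A.CL_pow (-2 * (a * D₀)) hcD0
  obtain ⟨k, hk⟩ : ∃ k, k = P.card - (mat a b P Q).rank := ⟨_, rfl⟩
  have hrk : (mat a b P Q).rank ≤ P.card := by
    have := Matrix.rank_le_card_width (mat a b P Q)
    rwa [Fintype.card_coe] at this
  have m1' : (Cls (a * D) (b * D ^ 2)).ncard = 2 ^ (f1 + k) := by
    rw [pow_add, ← hf1, hk]
    exact m1
  have m2' : (Cls (-2 * (a * D)) ((a * D) ^ 2 - 4 * (b * D ^ 2))).ncard = 2 ^ (f2 + k) := by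
    rw [pow_add, ← hf2, hk]
    exact m2
  have e1 : expo (a * D) (b * D ^ 2) = f1 + k := by
    unfold expo
    rw [m1', Nat.log_pow one_lt_two]
  have e2 : expo (-2 * (a * D)) ((a * D) ^ 2 - 4 * (b * D ^ 2)) = f2 + k := by
    unfold expo
    rw [m2', Nat.log_pow one_lt_two]
  have e3 : expo (a * D₀) (b * D₀ ^ 2) = f1 := by
    unfold expo
    have : (Cls (a * D₀) (b * D₀ ^ 2)).ncard = 2 ^ f1 := hf1
    rw [this, Nat.log_pow one_lt_two]
  have e4 : expo (-2 * (a * D₀)) ((a * D₀) ^ 2 - 4 * (b * D₀ ^ 2)) = f2 := by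
    unfold expo
    have : (Cls (-2 * (a * D₀)) ((a * D₀) ^ 2 - 4 * (b * D₀ ^ 2))).ncard = 2 ^ f2 := hf2
    rw [this, Nat.log_pow one_lt_two]
  have hr := H68.A.rank_bound (a * D) (b * D ^ 2) hbD hcD
  have hr1 : rk (a * D) (b * D ^ 2) + 2 ≤ (f1 + k) + (f2 + k) := by
    have h1 : 4 * 2 ^ rk (a * D) (b * D ^ 2) ≤ 2 ^ (f1 + k) * 2 ^ (f2 + k) := by
      rw [← m1', ← m2']
      exact hr
    rw [← pow_add] at h1
    have h2 : 2 ^ (rk (a * D) (b * D ^ 2) + 2) ≤ 2 ^ (f1 + k + (f2 + k)) := by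
      rw [pow_add]
      linarith
    exact (Nat.pow_le_pow_iff_right one_lt_two).1 h2
  have e5 : selRank (a * D₀) (b * D₀ ^ 2) = f1 + f2 - 2 := by
    unfold selRank
    rw [e3, e4]
  have e6 : selRank (a * D) (b * D ^ 2) = f1 + k + (f2 + k) - 2 := by
    unfold selRank
    rw [e1, e2]
    push_cast
    ring
  have hk' : ((P.card : ℤ) - (mat a b P Q).rank) = k := by omega
  rw [hk', ← hk, e1, e2, e3, e4, e5, e6]
  exact ⟨rfl, rfl, by ring, by omega⟩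

open Classical in
/-- **Theorem.** Let `b` and `c = a² - 4 b` not be squares, `E_D : y² = x³ + a D x² + b D² x`, and
let `D₀` be a product of different silent primes. At least `C X / (log X)^{3/4}` numbers `D ≤ X` lie
in the family `Fam a b D₀`, and the proportion of those with `s(E_D) = s(E_{D₀})` (and hence
`rank E_D ≤ s(E_{D₀})`) tends to `∏ (1 - 2^{-(2i+1)}) = 0.4194...`. In particular, if
`s(E_{D₀}) = 0`, then `rank E_D = s(E_D) = 0` for exactly this proportion of the family. -/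
theorem result (a b : ℤ) (hb : ¬ IsSquare b) (hc : ¬ IsSquare (a ^ 2 - 4 * b)) (D₀ : ℕ)
    (h₀ : Squarefree D₀) (h₁ : ∀ q : ℕ, q.Prime → q ∣ D₀ → Silent a b q) :
    (∃ C : ℝ, 0 < C ∧ ∀ᶠ X : ℕ in Filter.atTop, C * X * (Real.log X) ^ (-(3 / 4) : ℝ) ≤
      cnt a b D₀ (fun _ => True) X) ∧
    Filter.Tendsto (fun X : ℕ =>
      (cnt a b D₀ (fun D => selRank (a * D) (b * D ^ 2) = selRank (a * D₀) (b * D₀ ^ 2) ∧
        (rk (a * D) (b * D ^ 2) : ℤ) ≤ selRank (a * D₀) (b * D₀ ^ 2)) X : ℝ) /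
        cnt a b D₀ (fun _ => True) X) Filter.atTop (nhds lim) ∧
    0.4194 < lim ∧ lim < 0.4195 := by
  have hb0 : b ≠ 0 := by rintro rfl; exact hb IsSquare.zero
  have hc0 : a ^ 2 - 4 * b ≠ 0 := by intro h; rw [h] at hc; exact hc IsSquare.zero
  -- the silent primes exist
  have hn := H68.T.nn_pos hb0 hc0
  have hne : (H68.T.BB a b).Nonempty := by
    obtain ⟨k, k1, k2, k3⟩ := H68.T.exists_neg2 hb0 hb hc0 hc (m := 8 * H68.T.nn a b) (by omega)
      (dvd_mul_right 8 _) H68.T.dvd_b H68.T.dvd_c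
    have ho := H68.T.odd_of_coprime (dvd_mul_right 8 _) k1
    have ho' := H68.T.odd_of_coprime (dvd_mul_right 8 _) (H68.T.mod_cop.2 k1)
    refine ⟨k % (8 * H68.T.nn a b), ?_⟩
    unfold H68.T.BB
    rw [Finset.mem_filter, Finset.mem_range, H68.T.mod_cop]
    refine ⟨Nat.mod_lt _ (by omega), k1, ?_, ?_⟩
    · rw [H68.T.jac_mod ho' ho ((Nat.mod_modEq _ _).of_dvd H68.T.dvd_b), k2]
    · rw [H68.T.jac_mod ho' ho ((Nat.mod_modEq _ _).of_dvd H68.T.dvd_c), k3]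
  have hR : ∀ q ∈ D₀.primeFactors, Silent a b q := fun q hq =>
    h₁ q (Nat.prime_of_mem_primeFactors hq) (Nat.dvd_of_mem_primeFactors hq)
  have hRp : ∏ q ∈ D₀.primeFactors, q = D₀ := Nat.prod_primeFactors_of_squarefree h₀
  have hok : H68.G.Ok (H68.T.pp a b D₀) := by
    have := H68.T.okp hb0 hc0 hne D₀.primeFactors hR
    rwa [hRp] at this
  have hnd : ∀ l : ℕ, l.Prime → (l : ℤ) ∣ b * (a ^ 2 - 4 * b) → ∀ q : ℕ, q.Prime →
      Split a b q ∨ Silent a b q → l ≠ q := by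
    intro l hl hln q hq h
    rintro rfl
    have hlf := Fact.mk hl
    rcases h with h | h
    · exact h.2.2.1 hln
    · have hpi : Prime (l : ℤ) := Nat.prime_iff_prime_int.1 hl
      rcases hpi.dvd_or_dvd hln with h' | h'
      · exact H68.A.not_dvd_of_not_sq h.2.2.1 h'
      · exact H68.A.not_dvd_of_not_sq h.2.2.2 h'
  have hnd0 : ∀ l : ℕ, l.Prime → (l : ℤ) ∣ b * (a ^ 2 - 4 * b) → ¬ l ∣ D₀ := by
    intro l hl hln h
    exact hnd l hl hln l hl (Or.inr (h₁ l hl h)) rfl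
  -- the family
  have hfam : ∀ D : ℕ, Fam a b D₀ D ↔ Squarefree D ∧
      H68.G.Cl (H68.T.pp a b D₀) D.primeFactors := by
    intro D
    unfold Fam
    refine and_congr_right fun hD => ?_
    rw [H68.T.cl_iff hb0 hc0 hD]
    refine and_congr_right fun hD1 => ?_
    rw [H68.T.Tri_iff hb0 hc0]
    intro l hl hln h
    rcases (Nat.Prime.dvd_mul hl).1 h with h | h
    · exact hnd l hl hln l hl (hD1 l hl h) rfl
    · exact hnd0 l hl hln h
  -- the Selmer ranks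
  have hsel : ∀ D : ℕ, Fam a b D₀ D → ∃ k : ℕ,
      expo (a * D) (b * D ^ 2) = expo (a * D₀) (b * D₀ ^ 2) + k ∧
      expo (-2 * (a * D)) ((a * D) ^ 2 - 4 * (b * D ^ 2)) =
        expo (-2 * (a * D₀)) ((a * D₀) ^ 2 - 4 * (b * D₀ ^ 2)) + k ∧
      selRank (a * D) (b * D ^ 2) = selRank (a * D₀) (b * D₀ ^ 2) + 2 * k ∧
      (rk (a * D) (b * D ^ 2) : ℤ) ≤ selRank (a * D₀) (b * D₀ ^ 2) + 2 * k ∧
      (k = 0 ↔ H68.G.Gd (H68.T.pp a b D₀) (H68.A.rt a b) D.primeFactors) := by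
    intro D hD
    obtain ⟨hD1, hD2, hD3, hD4⟩ := hD
    obtain ⟨P, hP⟩ : ∃ P, P = D.primeFactors.filter (fun p => Split a b p) := ⟨_, rfl⟩
    obtain ⟨Q, hQ⟩ : ∃ Q, Q = D.primeFactors.filter (fun p => ¬ Split a b p) := ⟨_, rfl⟩
    have hPQ : P ∪ Q = D.primeFactors := by
      rw [hP, hQ]; exact Finset.filter_union_filter_not_eq _ _
    have hPm : ∀ p ∈ P, Split a b p := fun p hp => by
      rw [hP, Finset.mem_filter] at hp; exact hp.2
    have hQm : ∀ p ∈ Q, Silent a b p := fun p hp => by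
      rw [hQ, Finset.mem_filter] at hp
      exact (hD2 p (Nat.prime_of_mem_primeFactors hp.1)
        (Nat.dvd_of_mem_primeFactors hp.1)).resolve_left hp.2
    have hprod : (∏ p ∈ P, p) * ∏ q ∈ Q, q = D := by
      rw [hP, hQ, Finset.prod_filter_mul_prod_filter_not, Nat.prod_primeFactors_of_squarefree hD1]
    have hPt : H68.T.Tri a b (∏ p ∈ P, p) := by
      have key : ∀ S : Finset ℕ, (∀ p ∈ S, Split a b p) → H68.T.Tri a b (∏ p ∈ S, p) := by
        intro S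
        induction S using Finset.induction_on with
        | empty => intro _; exact H68.T.Tri.one
        | insert p S hp ih =>
          intro h
          rw [Finset.prod_insert hp]
          exact (H68.T.Spl.tri hb0 hc0 (h p (Finset.mem_insert_self p S))).mul
            (ih fun q hq => h q (Finset.mem_insert_of_mem hq))
      exact key P hPm
    have hQt : H68.T.Tri a b ((∏ q ∈ Q, q) * D₀) := by
      have h1 : H68.T.Tri a b (D * D₀) := ((H68.T.cl_iff hb0 hc0 hD1).1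
        ((hfam D).1 ⟨hD1, hD2, hD3, hD4⟩).2).2
      rw [← hprod, mul_assoc] at h1
      exact h1.cancel hPt
    have hQt' := (H68.T.Tri_iff hb0 hc0 (n := (∏ q ∈ Q, q) * D₀) (by
      intro l hl hln h
      rcases (Nat.Prime.dvd_mul hl).1 h with h | h
      · rw [Prime.dvd_finsetProd_iff hl.prime] at h
        obtain ⟨q, hq, hlq⟩ := h
        have h1 := (Nat.prime_dvd_prime_iff_eq hl (hQm q hq).1).1 hlq
        exact hnd l hl hln q (hQm q hq).1 (Or.inr (hQm q hq)) h1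
      · exact hnd0 l hl hln h)).1 hQt
    obtain ⟨t1, t2, t3, t4⟩ := twists a b hb0 hc0 P Q D₀.primeFactors hPm hQm hR
      (by rw [hRp]; exact hQt'.1) (by rw [hRp]; exact hQt'.2) (D : ℤ) (D₀ : ℤ)
      (by rw [← hprod]; push_cast; rfl) (by
        have h := congrArg (Nat.cast : ℕ → ℤ) hRp
        rw [← h]; push_cast; rfl)
    have hrk : (mat a b P Q).rank ≤ P.card := by
      have := Matrix.rank_le_card_width (mat a b P Q)
      rwa [Fintype.card_coe] at this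
    refine ⟨P.card - (mat a b P Q).rank, t1, t2, ?_, ?_, ?_⟩
    · rw [t3]
      push_cast [Nat.cast_sub hrk]
      ring
    · push_cast [Nat.cast_sub hrk]
      exact t4
    · rw [← hPQ, H68.T.gd_iff hb0 hc0 D₀ P Q hPm hQm]
      omega
  -- the counts
  have hcnt1 : ∀ X : ℕ, cnt a b D₀ (fun _ => True) X = ((Finset.Icc 1 X).filter fun D =>
      Squarefree D ∧ H68.G.Cl (H68.T.pp a b D₀) D.primeFactors).card := by
    intro X
    unfold cnt
    rw [← Set.ncard_coe_finset]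
    congr 1
    ext D
    rw [Set.mem_ofPred_eq, Finset.mem_coe, Finset.mem_filter, Finset.mem_Icc, hfam D]
    constructor
    · rintro ⟨h1, h2, -⟩
      exact ⟨⟨Nat.pos_of_ne_zero h2.1.ne_zero, h1⟩, h2⟩
    · rintro ⟨⟨-, h1⟩, h2⟩
      exact ⟨h1, h2, trivial⟩
  have hcnt2 : ∀ X : ℕ,
      cnt a b D₀ (fun D => selRank (a * D) (b * D ^ 2) = selRank (a * D₀) (b * D₀ ^ 2) ∧
        (rk (a * D) (b * D ^ 2) : ℤ) ≤ selRank (a * D₀) (b * D₀ ^ 2)) X =
      ((Finset.Icc 1 X).filter fun D => Squarefree D ∧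
        H68.G.Cl (H68.T.pp a b D₀) D.primeFactors ∧
        H68.G.Gd (H68.T.pp a b D₀) (H68.A.rt a b) D.primeFactors).card := by
    intro X
    unfold cnt
    rw [← Set.ncard_coe_finset]
    congr 1
    ext D
    rw [Set.mem_ofPred_eq, Finset.mem_coe, Finset.mem_filter, Finset.mem_Icc, ← and_assoc (a :=
      Squarefree D), ← hfam D]
    constructor
    · rintro ⟨h1, h2, h3, -⟩
      obtain ⟨k, -, -, k3, -, k5⟩ := hsel D h2
      exact ⟨⟨Nat.pos_of_ne_zero h2.1.ne_zero, h1⟩, h2, k5.1 (by rw [k3] at h3; omega)⟩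
    · rintro ⟨⟨-, h1⟩, h2, h3⟩
      obtain ⟨k, -, -, k3, k4, k5⟩ := hsel D h2
      have hk0 := k5.2 h3
      rw [hk0] at k3 k4
      refine ⟨h1, h2, ?_, ?_⟩
      · show selRank (a * D) (b * D ^ 2) = selRank (a * D₀) (b * D₀ ^ 2)
        rw [k3]
        simp
      · show (rk (a * D) (b * D ^ 2) : ℤ) ≤ selRank (a * D₀) (b * D₀ ^ 2)
        simpa using k4
  have hlim := H68.G.t_DEN (H68.T.pp a b D₀) (H68.A.rt a b) hok
  have hc2 := Pool.Agent.Y948.CQ.t_C2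
  refine ⟨?_, ?_, hc2.2.2.2.1, hc2.2.2.2.2⟩
  · obtain ⟨c, hc0', hsz⟩ := H68.T.size hb0 hc0 hne D₀.primeFactors hR
    rw [hRp] at hsz
    refine ⟨c, hc0', ?_⟩
    filter_upwards [hsz] with X hX1
    rwa [← hcnt1] at hX1
  · refine hlim.congr fun X => ?_
    rw [hcnt1, hcnt2]

end Pool.Agent.Results.MP_e2b281_nt.SelmerLawTwists
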