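import Pool.Agent.H68.B.Mat

/-!
# The 2-isogeny Selmer ranks of the twists by split and silent primes, for every curve
-/

set_option autoImplicit false

namespace Pool.Agent.Results.MP_e2b281_nt.SplitSilentTwists

/-- the quartic `N² = b₁ M⁴ + a M² e² + b₂ e⁴` has a solution with `(M, e) ≠ (0, 0)` over `K` -/
def Solv (K : Type) [Field K] (a b₁ b₂ : ℤ) : Prop :=
  ∃ N M e : K, (M ≠ 0 ∨ e ≠ 0) ∧
    N ^ 2 = (b₁ : K) * M ^ 4 + (a : K) * M ^ 2 * e ^ 2 + (b₂ : K) * e ^ 4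

/-- the squarefree divisors `b₁` of `b` for which the quartic is everywhere locally solvable -/
def Cls (a b : ℤ) : Set ℤ := {b₁ | Squarefree b₁ ∧ b₁ ∣ b ∧ Solv ℝ a b₁ (b / b₁) ∧
  ∀ (p : ℕ) [Fact p.Prime], Solv ℚ_[p] a b₁ (b / b₁)}

/-- the exponent `f₁` of the problem for the curve `y² = x³ + a x² + b x`: the binary logarithm of
the number of the classes -/
noncomputable def expo (a b : ℤ) : ℕ := Nat.log 2 (Cls a b).ncard

/-- the 2-Selmer rank `s = f₁ + f₂ - 2` of `y² = x³ + a x² + b x` -/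
noncomputable def selRank (a b : ℤ) : ℤ := expo a b + expo (-2 * a) (a ^ 2 - 4 * b) - 2

/-- the rank of the Mordell-Weil group of `y² = x³ + a x² + b x` over `ℚ` -/
noncomputable def rk (a b : ℤ) : ℕ :=
  Module.finrank ℤ (({ a₁ := 0, a₂ := (a : ℚ), a₃ := 0, a₄ := (b : ℚ), a₆ := 0 } :
    WeierstrassCurve ℚ).toAffine.Point)

/-- `p` is an odd prime which does not divide `b (a² - 4 b)`, and `-1`, `2` and all the prime
factors of `b (a² - 4 b)` are squares modulo `p` -/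
def Split (a b : ℤ) (p : ℕ) : Prop := p.Prime ∧ p ≠ 2 ∧ ¬ (p : ℤ) ∣ b * (a ^ 2 - 4 * b) ∧
  IsSquare (-1 : ZMod p) ∧ IsSquare (2 : ZMod p) ∧
  ∀ l : ℕ, l.Prime → (l : ℤ) ∣ b * (a ^ 2 - 4 * b) → IsSquare (l : ZMod p)

/-- `q` is an odd prime, and neither `b` nor `a² - 4 b` is a square modulo `q` -/
def Silent (a b : ℤ) (q : ℕ) : Prop := q.Prime ∧ q ≠ 2 ∧ ¬ IsSquare (b : ZMod q) ∧
  ¬ IsSquare ((a ^ 2 - 4 * b : ℤ) : ZMod q)

open Classical in
/-- the additive residue symbol: `0` for the squares modulo `p`, `1` for the other numbers -/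
noncomputable def sym (p : ℕ) (n : ℤ) : ZMod 2 := if IsSquare (n : ZMod p) then 0 else 1

open Classical in
/-- `0` if a root of `x² + a x + b` modulo `p` is a square modulo `p`, `1` otherwise -/
noncomputable def root (a b : ℤ) (p : ℕ) : ZMod 2 :=
  if ∃ e : ZMod p, e ^ 2 + (a : ZMod p) * e + (b : ZMod p) = 0 ∧ IsSquare e then 0 else 1

/-- the matrix of the twist by the primes in `P` and `Q`; its rows and columns are indexed by `P`,
the entry at `(p, r)`, `p ≠ r`, is the symbol of `r` modulo `p`, the entry at `(p, p)` is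
`root a b p` plus the sum of the symbols modulo `p` of the other primes in `P` and `Q` -/
noncomputable def mat (a b : ℤ) (P Q : Finset ℕ) : Matrix P P (ZMod 2) := fun p r =>
  if p = r then root a b p + ∑ s ∈ (P ∪ Q).erase (p : ℕ), sym p (s : ℤ) else sym p ((r : ℕ) : ℤ)

/-- for every curve `y² = x³ + a x² + b x`, the 2-isogeny Selmer ranks of the twists by products `D`
of split primes (in `P`) and of silent primes (in `Q`), compared with the twist by a product `D₀` of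
silent primes (in `R`) such that `D₀ ∏ Q` is `1` modulo `8` and a square modulo the odd prime
factors of `b (a² - 4 b)` (`R = Q` and, if `∏ Q` has this property, `R = ∅`, are allowed) -/
theorem result (a b : ℤ) (hb : b ≠ 0) (hc : a ^ 2 - 4 * b ≠ 0) (P Q R : Finset ℕ)
    (hP : ∀ p ∈ P, Split a b p) (hQ : ∀ q ∈ Q, Silent a b q) (hR : ∀ q ∈ R, Silent a b q)
    (h8 : ((∏ q ∈ Q, q) * ∏ q ∈ R, q) % 8 = 1)
    (hl : ∀ l : ℕ, l.Prime → l ≠ 2 → (l : ℤ) ∣ b * (a ^ 2 - 4 * b) →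
      IsSquare (((∏ q ∈ Q, q) * ∏ q ∈ R, q : ℕ) : ZMod l))
    (D D₀ : ℤ) (hD : D = (∏ p ∈ P, (p : ℤ)) * ∏ q ∈ Q, (q : ℤ)) (hD₀ : D₀ = ∏ q ∈ R, (q : ℤ)) :
    expo (a * D) (b * D ^ 2) = expo (a * D₀) (b * D₀ ^ 2) + (P.card - (mat a b P Q).rank) ∧
    expo (-2 * (a * D)) ((a * D) ^ 2 - 4 * (b * D ^ 2)) =
      expo (-2 * (a * D₀)) ((a * D₀) ^ 2 - 4 * (b * D₀ ^ 2)) +
        (P.card - (mat a b P Q).rank) ∧
    selRank (a * D) (b * D ^ 2) =
      selRank (a * D₀) (b * D₀ ^ 2) + 2 * ((P.card : ℤ) - (mat a b P Q).rank) ∧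
    (rk (a * D) (b * D ^ 2) : ℤ) ≤
      selRank (a * D₀) (b * D₀ ^ 2) + 2 * ((P.card : ℤ) - (mat a b P Q).rank) ∧
    (selRank (a * D₀) (b * D₀ ^ 2) = 0 → IsUnit (mat a b P Q).det →
      rk (a * D) (b * D ^ 2) = 0 ∧ selRank (a * D) (b * D ^ 2) = 0) := by
  have hQR : (∏ q ∈ Q, (q : ℤ)) * ∏ q ∈ R, (q : ℤ) = (((∏ q ∈ Q, q) * ∏ q ∈ R, q : ℕ) : ℤ) := by
    push_cast; rfl
  have hposQ : 0 < ∏ q ∈ Q, (q : ℤ) :=
    Finset.prod_pos (fun q hq => by exact_mod_cast (hQ q hq).1.pos)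
  have hposR : 0 < ∏ q ∈ R, (q : ℤ) :=
    Finset.prod_pos (fun q hq => by exact_mod_cast (hR q hq).1.pos)
  have hT : H68.A.Tr (b * (a ^ 2 - 4 * b)) ((∏ q ∈ Q, (q : ℤ)) * ∏ q ∈ R, (q : ℤ)) := by
    refine ⟨mul_pos hposQ hposR, by rw [hQR]; exact_mod_cast h8, ?_⟩
    intro l hlp hl2 hln
    constructor
    · have := Fact.mk hlp
      have hpi : Prime (l : ℤ) := Nat.prime_iff_prime_int.1 hlp
      have key : ∀ S : Finset ℕ, (∀ q ∈ S, Silent a b q) → ¬ (l : ℤ) ∣ ∏ q ∈ S, (q : ℤ) := by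
        intro S hS
        refine (H68.A.nr_prod (p := l) S (fun r hr => ⟨(hS r hr).1, ?_⟩)).1
        rintro rfl
        exact (hpi.dvd_or_dvd hln).elim (H68.A.not_dvd_of_not_sq (hS r hr).2.2.1)
          (H68.A.not_dvd_of_not_sq (hS r hr).2.2.2)
      exact fun h => (hpi.dvd_or_dvd h).elim (key Q hQ) (key R hR)
    · rw [hQR]
      have := hl l hlp hl2 hln
      rw [Int.cast_natCast]
      exact this
  have hdt := H68.A.dt hb hc hP hQ
  have hD' : D = ∏ r ∈ P ∪ Q, (r : ℤ) := by rw [hD, Finset.prod_union hdt.1.disj]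
  obtain ⟨m1, m2⟩ := H68.A.main2 hb hc hP hQ hR hT
  rw [← hD', ← hD₀] at m1 m2
  have hD0 : D ≠ 0 := by
    rw [hD']
    exact (H68.A.sqf_prod (P ∪ Q) (fun r hr => hdt.1.prime hr)).ne_zero
  have hD00 : D₀ ≠ 0 := by
    rw [hD₀]
    exact hposR.ne'
  have key : ∀ D : ℤ, D ≠ 0 → b * D ^ 2 ≠ 0 ∧ (a * D) ^ 2 - 4 * (b * D ^ 2) ≠ 0 := by
    intro D hD0
    refine ⟨mul_ne_zero hb (pow_ne_zero 2 hD0), ?_⟩
    have e : (a * D) ^ 2 - 4 * (b * D ^ 2) = (a ^ 2 - 4 * b) * D ^ 2 := by ring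
    rw [e]
    exact mul_ne_zero hc (pow_ne_zero 2 hD0)
  obtain ⟨hbD, hcD⟩ := key D hD0
  obtain ⟨hbD0, hcD0⟩ := key D₀ hD00
  obtain ⟨f1, hf1⟩ := H68.A.CL_pow (a * D₀) hbD0
  obtain ⟨f2, hf2⟩ := H68.A.CL_pow (-2 * (a * D₀)) hcD0
  obtain ⟨k, hk⟩ : ∃ k, k = P.card - (mat a b P Q).rank := ⟨_, rfl⟩
  have hrk : (mat a b P Q).rank ≤ P.card := by
    have := Matrix.rank_le_card_width (mat a b P Q)
    rwa [Fintype.card_coe] at this
  have m1' : (Cls (a * D) (b * D ^ 2)).ncard = 2 ^ (f1 + k) := by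
    rw [pow_add, ← hf1, hk]
    exact m1
  have m2' : (Cls (-2 * (a * D)) ((a * D) ^ 2 - 4 * (b * D ^ 2))).ncard = 2 ^ (f2 + k) := by
    rw [pow_add, ← hf2, hk]
    exact m2
  have e1 : expo (a * D) (b * D ^ 2) = f1 + k := by
    unfold expo
    rw [m1', Nat.log_pow one_lt_two]
  have e2 : expo (-2 * (a * D)) ((a * D) ^ 2 - 4 * (b * D ^ 2)) = f2 + k := by
    unfold expo
    rw [m2', Nat.log_pow one_lt_two]
  have e3 : expo (a * D₀) (b * D₀ ^ 2) = f1 := by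
    unfold expo
    have : (Cls (a * D₀) (b * D₀ ^ 2)).ncard = 2 ^ f1 := hf1
    rw [this, Nat.log_pow one_lt_two]
  have e4 : expo (-2 * (a * D₀)) ((a * D₀) ^ 2 - 4 * (b * D₀ ^ 2)) = f2 := by
    unfold expo
    have : (Cls (-2 * (a * D₀)) ((a * D₀) ^ 2 - 4 * (b * D₀ ^ 2))).ncard = 2 ^ f2 := hf2
    rw [this, Nat.log_pow one_lt_two]
  have hr := H68.A.rank_bound (a * D) (b * D ^ 2) hbD hcD
  have hr1 : rk (a * D) (b * D ^ 2) + 2 ≤ (f1 + k) + (f2 + k) := by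
    have h1 : 4 * 2 ^ rk (a * D) (b * D ^ 2) ≤ 2 ^ (f1 + k) * 2 ^ (f2 + k) := by
      rw [← m1', ← m2']
      exact hr
    rw [← pow_add] at h1
    have h2 : 2 ^ (rk (a * D) (b * D ^ 2) + 2) ≤ 2 ^ (f1 + k + (f2 + k)) := by
      rw [pow_add]
      linarith
    exact (Nat.pow_le_pow_iff_right one_lt_two).1 h2
  have e5 : selRank (a * D₀) (b * D₀ ^ 2) = f1 + f2 - 2 := by
    unfold selRank
    rw [e3, e4]
  have e6 : selRank (a * D) (b * D ^ 2) = f1 + k + (f2 + k) - 2 := by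
    unfold selRank
    rw [e1, e2]
    push_cast
    ring
  have hk' : ((P.card : ℤ) - (mat a b P Q).rank) = k := by omega
  rw [hk', ← hk, e1, e2, e3, e4, e5, e6]
  refine ⟨rfl, rfl, by ring, by omega, ?_⟩
  intro h0 hu
  have h1 : (mat a b P Q).rank = P.card := by
    rw [Matrix.rank_of_isUnit _ ((Matrix.isUnit_iff_isUnit_det _).2 hu), Fintype.card_coe]
  have h2 : k = 0 := by omega
  constructor <;> omega

end Pool.Agent.Results.MP_e2b281_nt.SplitSilentTwists
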